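import Pool.Agent.NH36.Cp.Front

/-!
# The sign conjecture for varieties whose odd cohomology has level one

`H` is a Weil cohomology theory with coefficients in a field `K` of characteristic zero on a class of
smooth projective varieties over a field `k`, for instance crystalline cohomology over a perfect field
of characteristic `p`. Correspondences `Z` on `X × Y` act on cohomology by `star H Z` and, transposed,
by `starT H Z`.

**Theorem.** Let `X` be a variety of dimension `d` which satisfies the hard Lefschetz theorem.

* If `2 c - 1 ≤ d` and `H^(2c-1)(X)` has level one, that is, it is the image of the first cohomology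
  of a curve under a cycle of codimension `c`, then the Künneth projectors of `X` in the degrees
  `2 c - 1` and `2 d - 2 c + 1` are algebraic.
* If for all odd numbers `2 c - 1 ≤ d` the group `H^(2c-1)(X)` has level one (or its
  Künneth projector is algebraic), then `C⁺(X)` is true.

No standard conjecture for `X` or for the variety carrying the cohomology is used, only the classical
facts on curves in `WeilCurveFacts`: the positivity of the trace on the correspondences of a
curve, the existence of the projector to `H^1`, and the algebraicity of the induced endomorphisms of
`H^1` over `ℚ`.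

Examples: `H^1(X)` always has level one. `H^3(X)` has level one if the zero-cycles of `X`, over all
field extensions, are supported on a surface (Bloch and Srinivas; over fields of positive characteristic
use alterations). So `C⁺(X)` is true for all threefolds and fourfolds of this kind, for instance for
threefolds and fourfolds which are fibred over a surface with rationally chain connected fibres.
-/

set_option autoImplicit false

namespace Pool.Agent.Results.MP_fd35e1_ag.LevelOneOddCohomology

open CategoryTheory Pool.Agent.H914 Pool.Agent.H914.VarClass Pool.Agent.H914.VarClass.Obj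
open Pool.Agent.W492.BB Pool.Agent.NH36.BB Pool.Agent.NH36.CpF Pool.Agent.NH36

universe u v w

theorem result {k : Type u} [Field k] {𝒱 : VarClass k} {C : TheoryData.{u, v, 0} 𝒱 ℚ}
    [IsChow C] {K : Type w} [Field K] [CharZero K] (H : WeilTheoryData.{u, v, w} C K) [IsWeil H]
    (hC : WeilCurveFacts H) (hF : FiniteCohomology H) (X : 𝒱.Obj) (hX : HardLefschetzFor H X) :
    (∀ c : ℕ, 1 ≤ c → 2 * c - 1 ≤ X.dim → HasLevelOne H X c →
      KunnethAlgebraic H X (2 * c - 1) ∧ KunnethAlgebraic H X (2 * X.dim - (2 * c - 1))) ∧
    ((∀ c : ℕ, 1 ≤ c → 2 * c - 1 ≤ X.dim → HasLevelOne H X c ∨ KunnethAlgebraic H X (2 * c - 1)) →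
      SignConjecture H X) :=
  ⟨fun _ hc hcX hL =>
    have h := Cp.kunneth_of_levelOne H (curveFacts hC) (finiteFacts hF) hX hc hcX hL
    ⟨h, Cp.kunneth_dual H (finiteFacts hF) h⟩,
    fun h => Cp.sign_of_levels H (curveFacts hC) (finiteFacts hF) hX h⟩

end Pool.Agent.Results.MP_fd35e1_ag.LevelOneOddCohomology
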